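import Mathlib

/-!
# Groups whose nontrivial elements have prime order: sums over the cyclic subgroups
-/

namespace Pool.Agent.TH957.Zag

variable {G : Type*} [Group G]

lemma zpowers_eq_of_prime {g h : G} (hg : (orderOf g).Prime) (hh : h ∈ Subgroup.zpowers g) (h1 : h ≠ 1) :
    Subgroup.zpowers h = Subgroup.zpowers g := by
  have hle : Subgroup.zpowers h ≤ Subgroup.zpowers g := Subgroup.zpowers_le.2 hh
  have hdvd : orderOf h ∣ orderOf g := orderOf_dvd_of_mem_zpowers hh
  have hne : orderOf h ≠ 1 := fun h2 => h1 (orderOf_eq_one_iff.1 h2)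
  have heq : orderOf h = orderOf g := (hg.eq_one_or_self_of_dvd _ hdvd).resolve_left hne
  have hfin : Finite (Subgroup.zpowers g) := by
    apply Nat.finite_of_card_ne_zero
    rw [Nat.card_zpowers]
    exact hg.ne_zero
  apply Subgroup.eq_of_le_of_card_ge hle
  rw [Nat.card_zpowers, Nat.card_zpowers, heq]

open Classical in
/-- the cyclic subgroups generated by the nontrivial elements of `H` -/
noncomputable def cyc [Fintype G] (H : Subgroup G) : Finset (Subgroup G) :=
  (Finset.univ.filter fun h : G => h ∈ H ∧ h ≠ 1).image Subgroup.zpowers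

lemma mem_cyc [Fintype G] {H C : Subgroup G} : C ∈ cyc H ↔ ∃ h : G, (h ∈ H ∧ h ≠ 1) ∧ Subgroup.zpowers h = C := by
  classical
  unfold cyc
  simp

open Classical in
/-- the relation between the sums over the cyclic subgroups and the sum over `H` -/
theorem sum_cyc [Fintype G] {M : Type*} [AddCommGroup M] (f : G → M) (H : Subgroup G)
    (hp : ∀ h ∈ H, h ≠ 1 → (orderOf h).Prime) :
    ∑ C ∈ cyc H, ∑ h ∈ Finset.univ.filter (fun h : G => h ∈ C), f h =
      ((cyc H).card : ℤ) • f 1 + (∑ h ∈ Finset.univ.filter (fun h : G => h ∈ H), f h - f 1) := by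
  have e1 : ∀ C ∈ cyc H, ∑ h ∈ Finset.univ.filter (fun h : G => h ∈ C), f h =
      f 1 + ∑ h ∈ (Finset.univ.filter fun h : G => h ∈ H ∧ h ≠ 1).filter (fun h => Subgroup.zpowers h = C), f h := by
    intro C hC
    obtain ⟨g, ⟨hgH, hg1⟩, rfl⟩ := mem_cyc.1 hC
    have h1 : (1 : G) ∈ Finset.univ.filter (fun h : G => h ∈ Subgroup.zpowers g) := by
      simp only [Finset.mem_filter, Finset.mem_univ, true_and]
      exact Subgroup.one_mem _
    rw [← Finset.add_sum_erase _ _ h1]
    congr 1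
    apply Finset.sum_congr _ fun _ _ => rfl
    ext h
    simp only [Finset.mem_erase, Finset.mem_filter, Finset.mem_univ, true_and]
    constructor
    · rintro ⟨a, b⟩
      have hz := zpowers_eq_of_prime (hp g hgH hg1) b a
      refine ⟨⟨?_, a⟩, hz⟩
      exact (Subgroup.zpowers_le.2 hgH) b
    · rintro ⟨⟨a, b⟩, c⟩
      exact ⟨b, c ▸ Subgroup.mem_zpowers h⟩
  rw [Finset.sum_congr rfl e1, Finset.sum_add_distrib, Finset.sum_const]
  have e2 : ∑ C ∈ cyc H, ∑ h ∈ (Finset.univ.filter fun h : G => h ∈ H ∧ h ≠ 1).filter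
      (fun h => Subgroup.zpowers h = C), f h = ∑ h ∈ Finset.univ.filter (fun h : G => h ∈ H ∧ h ≠ 1), f h := by
    apply Finset.sum_fiberwise_of_maps_to
    intro h hh
    rw [mem_cyc]
    exact ⟨h, by simpa using hh, rfl⟩
  rw [e2]
  have h1 : (1 : G) ∈ Finset.univ.filter (fun h : G => h ∈ H) := by
    simp only [Finset.mem_filter, Finset.mem_univ, true_and]
    exact Subgroup.one_mem _
  have e3 : Finset.univ.filter (fun h : G => h ∈ H ∧ h ≠ 1) = (Finset.univ.filter (fun h : G => h ∈ H)).erase 1 := by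
    ext h
    simp only [Finset.mem_erase, Finset.mem_filter, Finset.mem_univ, true_and]
    tauto
  rw [e3, ← Finset.add_sum_erase _ f h1]
  rw [natCast_zsmul]
  abel

lemma two_le_cyc [Fintype G] {H : Subgroup G} (hH : ¬ IsCyclic H) : 2 ≤ (cyc H).card := by
  by_contra hlt
  apply hH
  by_cases hb : ∃ g ∈ H, g ≠ 1
  · obtain ⟨g, hg, hg1⟩ := hb
    have hmem : Subgroup.zpowers g ∈ cyc H := mem_cyc.2 ⟨g, ⟨hg, hg1⟩, rfl⟩
    have hone : (cyc H).card ≤ 1 := by omega
    rw [Finset.card_le_one] at hone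
    refine ⟨⟨⟨g, hg⟩, ?_⟩⟩
    rintro ⟨h, hh⟩
    by_cases h1 : h = 1
    · subst h1
      exact ⟨0, by simp; rfl⟩
    · have h2 : Subgroup.zpowers h ∈ cyc H := mem_cyc.2 ⟨h, ⟨hh, h1⟩, rfl⟩
      have h3 := hone _ h2 _ hmem
      have h4 : h ∈ Subgroup.zpowers g := h3 ▸ Subgroup.mem_zpowers h
      obtain ⟨k, hk⟩ := Subgroup.mem_zpowers_iff.1 h4
      exact ⟨k, Subtype.ext (by simpa using hk)⟩
  · push Not at hb
    refine ⟨⟨1, ?_⟩⟩
    rintro ⟨h, hh⟩
    have h1 := hb h hh
    subst h1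
    exact ⟨0, by simp; rfl⟩

/-- a non-cyclic subgroup of order `p q` -/
lemma prime_of_pq [Fintype G] {H : Subgroup G} {p q : ℕ} (hp : p.Prime) (hq : q.Prime) (hc : Nat.card H = p * q)
    (hH : ¬ IsCyclic H) : ∀ h ∈ H, h ≠ 1 → (orderOf h).Prime := by
  intro h hh h1
  have hdvd : orderOf h ∣ p * q := by
    rw [← hc, ← Subgroup.orderOf_mk h hh]
    exact orderOf_dvd_natCard _
  have hne1 : orderOf h ≠ 1 := fun h2 => h1 (orderOf_eq_one_iff.1 h2)
  have hnepq : orderOf h ≠ p * q := by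
    intro h2
    apply hH
    apply isCyclic_of_orderOf_eq_card (⟨h, hh⟩ : H)
    rw [Subgroup.orderOf_mk, h2, hc]
  rcases (Nat.dvd_mul.1 hdvd) with ⟨a, b, ha, hb, hab⟩
  rcases (Nat.dvd_prime hp).1 ha with h3 | h3
  · rcases (Nat.dvd_prime hq).1 hb with h4 | h4
    · exact absurd (by rw [← hab, h3, h4]) hne1
    · rw [← hab, h3, h4, one_mul]; exact hq
  · rcases (Nat.dvd_prime hq).1 hb with h4 | h4
    · rw [← hab, h3, h4, mul_one]; exact hp
    · exact absurd (by rw [← hab, h3, h4]) hnepq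

/-- all nontrivial elements of `H` have prime order -/
def PrimeElements (H : Subgroup G) : Prop := ∀ h ∈ H, h ≠ 1 → (orderOf h).Prime

variable (G) in
/-- all subgroups of `G` of order `p q` are cyclic -/
def CyclicPQ : Prop :=
  ∀ (H : Subgroup G) (p q : ℕ), p.Prime → q.Prime → Nat.card H = p * q → IsCyclic H

/-! ### Norm relations in the rational group algebra -/

open Classical in
/-- the norm element `∑_{h ∈ C} h` of a subgroup -/
noncomputable def nrm [Fintype G] (C : Subgroup G) : MonoidAlgebra ℚ G :=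
  ∑ h ∈ Finset.univ.filter (fun h : G => h ∈ C), MonoidAlgebra.of ℚ G h

/-- the two-sided ideal of `ℚ[G]` generated by the norm elements of the subgroups of a set `S` -/
noncomputable def normIdeal [Fintype G] (S : Set (Subgroup G)) : Submodule ℚ (MonoidAlgebra ℚ G) :=
  Submodule.span ℚ {z | ∃ (a b : MonoidAlgebra ℚ G) (C : Subgroup G), C ∈ S ∧ z = a * nrm C * b}

lemma of_mul_nrm [Fintype G] (C : Subgroup G) {g : G} (hg : g ∈ C) :
    MonoidAlgebra.of ℚ G g * nrm C = nrm C := by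
  classical
  unfold nrm
  rw [Finset.mul_sum]
  refine Finset.sum_nbij' (fun h => g * h) (fun h => g⁻¹ * h) ?_ ?_ ?_ ?_ ?_
  · intro h hh
    simp only [Finset.mem_filter, Finset.mem_univ, true_and] at hh ⊢
    exact C.mul_mem hg hh
  · intro h hh
    simp only [Finset.mem_filter, Finset.mem_univ, true_and] at hh ⊢
    exact C.mul_mem (C.inv_mem hg) hh
  · intro h _
    simp
  · intro h _
    simp
  · intro h _
    rw [map_mul]

/-- a norm relation: a non-cyclic subgroup all of whose nontrivial elements have prime order -/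
theorem one_mem_normIdeal [Fintype G] {H : Subgroup G} (hH : ¬ IsCyclic H)
    (hp : ∀ h ∈ H, h ≠ 1 → (orderOf h).Prime) :
    (1 : MonoidAlgebra ℚ G) ∈ normIdeal {C : Subgroup G | C ≤ H ∧ (Nat.card C).Prime} := by
  classical
  have hprime : ∀ C ∈ cyc H, C ≤ H ∧ (Nat.card C).Prime := by
    intro C hC
    obtain ⟨g, ⟨hg, hg1⟩, rfl⟩ := mem_cyc.1 hC
    exact ⟨Subgroup.zpowers_le.2 hg, by rw [Nat.card_zpowers]; exact hp g hg hg1⟩
  have h2 := two_le_cyc hH
  have hne : (cyc H).Nonempty := Finset.card_pos.1 (by omega)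
  obtain ⟨C₀, hC₀⟩ := hne
  have hN : ∀ C ∈ cyc H, nrm C ∈ normIdeal {C : Subgroup G | C ≤ H ∧ (Nat.card C).Prime} := fun C hC =>
    Submodule.subset_span ⟨1, 1, C, hprime C hC, by rw [one_mul, mul_one]⟩
  have hNH : nrm H ∈ normIdeal {C : Subgroup G | C ≤ H ∧ (Nat.card C).Prime} := by
    have e : nrm C₀ * nrm H = (Nat.card C₀ : ℚ) • nrm H := by
      conv_lhs => rw [nrm, Finset.sum_mul]
      rw [Finset.sum_congr rfl fun h hh => of_mul_nrm H ((hprime C₀ hC₀).1 (Finset.mem_filter.1 hh).2),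
        Finset.sum_const, ← Nat.cast_smul_eq_nsmul ℚ]
      congr 2
      rw [Nat.card_eq_fintype_card]
      exact (Fintype.card_subtype _).symm
    have h3 : nrm C₀ * nrm H ∈ normIdeal {C : Subgroup G | C ≤ H ∧ (Nat.card C).Prime} :=
      Submodule.subset_span ⟨1, nrm H, C₀, hprime C₀ hC₀, by rw [one_mul]⟩
    rw [e] at h3
    have h4 := Submodule.smul_mem _ ((Nat.card C₀ : ℚ))⁻¹ h3
    rwa [smul_smul, inv_mul_cancel₀ (by exact_mod_cast (hprime C₀ hC₀).2.ne_zero), one_smul] at h4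
  have key := sum_cyc (fun h : G => MonoidAlgebra.of ℚ G h) H hp
  rw [map_one] at key
  have key2 : ∑ C ∈ cyc H, nrm C = ((cyc H).card : ℤ) • (1 : MonoidAlgebra ℚ G) + (nrm H - 1) := key
  have key3 : ((((cyc H).card : ℤ) - 1 : ℤ)) • (1 : MonoidAlgebra ℚ G) ∈
      normIdeal {C : Subgroup G | C ≤ H ∧ (Nat.card C).Prime} := by
    have e : ((((cyc H).card : ℤ) - 1 : ℤ)) • (1 : MonoidAlgebra ℚ G) = ∑ C ∈ cyc H, nrm C - nrm H := by
      rw [key2, sub_smul, one_smul]
      abel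
    rw [e]
    exact Submodule.sub_mem _ (Submodule.sum_mem _ fun C hC => hN C hC) hNH
  have hq : ((((cyc H).card : ℤ) - 1 : ℤ) : ℚ) ≠ 0 := by
    have : ((cyc H).card : ℤ) - 1 ≠ 0 := by omega
    exact_mod_cast this
  have key4 := Submodule.smul_mem _ ((((cyc H).card : ℤ) - 1 : ℤ) : ℚ)⁻¹ key3
  rw [← Int.cast_smul_eq_zsmul ℚ, smul_smul, inv_mul_cancel₀ hq, one_smul] at key4
  exact key4

lemma normIdeal_mono [Fintype G] {S T : Set (Subgroup G)} (h : S ⊆ T) : normIdeal S ≤ normIdeal T := by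
  apply Submodule.span_mono
  rintro _ ⟨a, b, C, hC, rfl⟩
  exact ⟨a, b, C, h hC, rfl⟩

end Pool.Agent.TH957.Zag
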