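import Mathlib

/-!
# The groups `R_n(F) ⊂ ℤ[ℙ¹(F)]`, the maps `δ_n`, the functions `L_n`; functoriality in the field
-/

open scoped TensorProduct

namespace Pool.Agent.TH957.Zag

section Generic

variable {X Y : Type} {A A' B B' : Type} [AddCommGroup A] [AddCommGroup A'] [AddCommGroup B] [AddCommGroup B']

/-- the additive extension of a map to the free abelian group -/
def lin (f : X → A) : FreeAbelianGroup X →+ A := FreeAbelianGroup.lift f

@[simp] lemma lin_of (f : X → A) (x : X) : lin f (FreeAbelianGroup.of x) = f x := FreeAbelianGroup.lift_apply_of _ _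

variable (A B) in
/-- the tensor product of two abelian groups -/
def Tens : Type := TensorProduct ℤ A B

noncomputable instance Tens.addCommGroup : AddCommGroup (Tens A B) := TensorProduct.addCommGroup

/-- `a ⊗ b` -/
noncomputable def tens (a : A) (b : B) : Tens A B := TensorProduct.tmul ℤ a b

/-- functoriality of the tensor product -/
noncomputable def tensMap (f : A →+ A') (g : B →+ B') : Tens A B →+ Tens A' B' :=
  (TensorProduct.map f.toIntLinearMap g.toIntLinearMap).toAddMonoidHom

lemma tensMap_tens (f : A →+ A') (g : B →+ B') (a : A) (b : B) : tensMap f g (tens a b) = tens (f a) (g b) := rfl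

lemma tens_zero (a : A) : tens a (0 : B) = 0 := TensorProduct.tmul_zero _ _

variable (A) in
/-- the subgroup of `A ⊗ A` generated by the `a ⊗ a` -/
noncomputable def wedgeRel : AddSubgroup (Tens A A) := AddSubgroup.closure {z | ∃ a : A, z = tens a a}

variable (A) in
/-- the exterior square of an abelian group -/
def Wedge : Type := Tens A A ⧸ wedgeRel A

noncomputable instance Wedge.addCommGroup : AddCommGroup (Wedge A) :=
  QuotientAddGroup.Quotient.addCommGroup (wedgeRel A)

/-- `a ∧ b` -/
noncomputable def wedge (a b : A) : Wedge A := (QuotientAddGroup.mk (tens a b) : Tens A A ⧸ wedgeRel A)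

/-- functoriality of the exterior square -/
noncomputable def wedgeMap (f : A →+ A') : Wedge A →+ Wedge A' :=
  QuotientAddGroup.map (wedgeRel A) (wedgeRel A') (tensMap f f) (by
    unfold wedgeRel
    rw [AddSubgroup.closure_le]
    rintro _ ⟨a, rfl⟩
    rw [SetLike.mem_coe, AddSubgroup.mem_comap, tensMap_tens]
    exact AddSubgroup.subset_closure ⟨f a, rfl⟩)

lemma wedgeMap_wedge (f : A →+ A') (a b : A) : wedgeMap f (wedge a b) = wedge (f a) (f b) := rfl

end Generic

/-- the free abelian group `ℤ[ℙ¹(F)]`; `none` is the point `∞` -/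
abbrev ZP (F : Type) : Type := FreeAbelianGroup (Option F)

/-- the generator `{x}`, `x ∈ F` -/
def pt {F : Type} (x : F) : ZP F := FreeAbelianGroup.of (some x)

/-- the generator `{∞}` -/
def ptInf (F : Type) : ZP F := FreeAbelianGroup.of none

section Defs

variable (F : Type) [Field F]

/-- the class of `x` in `F^*`, written additively (and `0` for `x = 0`) -/
noncomputable def unit {F : Type} [Field F] (x : F) : Additive Fˣ :=
  open Classical in if h : x = 0 then 0 else Additive.ofMul (Units.mk0 x h)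

/-- `δ_2 : {x} ↦ (1 - x) ∧ x`, with values in the exterior square of `F^*`, and `{0}, {1}, {∞} ↦ 0` -/
noncomputable def deltaTwo : ZP F →+ Wedge (Additive Fˣ) :=
  lin fun x => x.elim 0 fun x => wedge (unit (1 - x)) (unit x)

/-- `δ_n : {x} ↦ {x}_{n-1} ⊗ x ∈ (ℤ[ℙ¹(F)] / R_{n-1}) ⊗ F^*`, and `{0}, {1}, {∞} ↦ 0` -/
noncomputable def delta (R : AddSubgroup (ZP F)) : ZP F →+ Tens (ZP F ⧸ R) (Additive Fˣ) :=
  lin fun x => x.elim 0 fun x => tens (QuotientAddGroup.mk (pt x)) (unit x)

/-- the kernel of `δ_{m+1}` in terms of `R_m` -/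
noncomputable def kerOf (m : ℕ) (R : AddSubgroup (ZP F)) : AddSubgroup (ZP F) :=
  if m = 1 then (deltaTwo F).ker else (delta F R).ker

/-- the value `f(t) ∈ ℙ¹(F)` for `f ∈ F(t)` -/
noncomputable def evalRat {F : Type} [Field F] (t : F) (f : RatFunc F) : Option F :=
  open Classical in if f.denom.eval t = 0 then none else some (f.num.eval t / f.denom.eval t)

/-- the value `f(t) ∈ ℙ¹(F)` for `f ∈ ℙ¹(F(t))` -/
noncomputable def evalAt {F : Type} [Field F] (t : F) (f : Option (RatFunc F)) : Option F :=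
  f.elim none (evalRat t)

/-- `α ↦ α(t)` -/
noncomputable def spec {F : Type} [Field F] (t : F) : ZP (RatFunc F) →+ ZP F :=
  FreeAbelianGroup.map (evalAt t)

/-- the relations for `n = 1`: `{x} + {y} - {x y}`, `{0}`, `{∞}` -/
def relOne : Set (ZP F) :=
  {z | z = pt 0 ∨ z = ptInf F ∨ ∃ x y : F, x ≠ 0 ∧ y ≠ 0 ∧ z = pt x + pt y - pt (x * y)}

/-- the relations for `n ≥ 2`: `α(0) - α(1)`, `α ∈ ker δ_n ⊂ ℤ[ℙ¹(F(t))]`, `{0}`, `{∞}` -/
def relOf (K : AddSubgroup (ZP (RatFunc F))) : Set (ZP F) :=
  {z | z = pt 0 ∨ z = ptInf F ∨ ∃ α ∈ K, z = spec 0 α - spec 1 α}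

end Defs

/-- the subgroups `R_n(F)` of `ℤ[ℙ¹(F)]` for `n ≥ 1` (`⊤` for `n = 0`) -/
noncomputable def R : ℕ → (F : Type) → [Field F] → AddSubgroup (ZP F)
  | 0, _, _ => ⊤
  | 1, F, _ => AddSubgroup.closure (relOne F)
  | m + 2, F, _ => AddSubgroup.closure (relOf F (kerOf (RatFunc F) (m + 1) (R (m + 1) (RatFunc F))))

/-- `ker δ_n ⊂ ℤ[ℙ¹(F)]` for `n ≥ 2` -/
noncomputable def kerDelta (n : ℕ) (F : Type) [Field F] : AddSubgroup (ZP F) :=
  kerOf F (n - 1) (R (n - 1) F)

/-! ### Functoriality -/

section Maps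

variable {E F : Type} [Field E] [Field F] (φ : E →+* F)

/-- the map `ℤ[ℙ¹(E)] → ℤ[ℙ¹(F)]` -/
def zmap : ZP E →+ ZP F := FreeAbelianGroup.map (Option.map φ)

@[simp] lemma zmap_none : zmap φ (ptInf E) = ptInf F := by
  simp [zmap, ptInf]

@[simp] lemma zmap_some (x : E) : zmap φ (pt x) = pt (φ x) := by
  simp [zmap, pt]

/-- the map on the unit groups -/
noncomputable def umap : Additive Eˣ →+ Additive Fˣ := MonoidHom.toAdditive (Units.map (φ : E →* F))

lemma umap_unit (x : E) : umap φ (unit x) = unit (φ x) := by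
  classical
  unfold unit
  by_cases h : x = 0
  · rw [dif_pos h, dif_pos (by rw [h, map_zero]), map_zero]
  · rw [dif_neg h, dif_neg (by rwa [map_eq_zero])]
    show Additive.ofMul (Units.map (φ : E →* F) (Units.mk0 x h)) = _
    congr 1
    ext
    simp

lemma deltaTwo_zmap (α : ZP E) :
    deltaTwo F (zmap φ α) = wedgeMap (umap φ) (deltaTwo E α) := by
  have : (deltaTwo F).comp (zmap φ) = (wedgeMap (umap φ)).comp (deltaTwo E) := by
    apply FreeAbelianGroup.lift_ext
    rintro (_ | x)
    · show deltaTwo F (zmap φ (ptInf E)) = wedgeMap (umap φ) (deltaTwo E (ptInf E))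
      rw [zmap_none]
      simp [deltaTwo, ptInf]
    · show deltaTwo F (zmap φ (pt x)) = wedgeMap (umap φ) (deltaTwo E (pt x))
      rw [zmap_some]
      simp [deltaTwo, pt, umap_unit, wedgeMap_wedge]
  exact DFunLike.congr_fun this α

lemma delta_zmap {RE : AddSubgroup (ZP E)} {RF : AddSubgroup (ZP F)} (h : RE ≤ RF.comap (zmap φ)) (α : ZP E) :
    delta F RF (zmap φ α) = tensMap (QuotientAddGroup.map RE RF (zmap φ) h) (umap φ) (delta E RE α) := by
  have : (delta F RF).comp (zmap φ) =
      (tensMap (QuotientAddGroup.map RE RF (zmap φ) h) (umap φ)).comp (delta E RE) := by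
    apply FreeAbelianGroup.lift_ext
    rintro (_ | x)
    · show delta F RF (zmap φ (ptInf E)) =
        tensMap (QuotientAddGroup.map RE RF (zmap φ) h) (umap φ) (delta E RE (ptInf E))
      rw [zmap_none]
      simp [delta, ptInf]
    · show delta F RF (zmap φ (pt x)) =
        tensMap (QuotientAddGroup.map RE RF (zmap φ) h) (umap φ) (delta E RE (pt x))
      rw [zmap_some]
      have e1 : delta E RE (pt x) = tens (QuotientAddGroup.mk (pt x)) (unit x) := by simp [delta, pt]
      have e2 : delta F RF (pt (φ x)) = tens (QuotientAddGroup.mk (pt (φ x))) (unit (φ x)) := by simp [delta, pt]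
      rw [e1, e2, tensMap_tens, umap_unit, QuotientAddGroup.map_mk, zmap_some]
  exact DFunLike.congr_fun this α

lemma kerOf_zmap {m : ℕ} {RE : AddSubgroup (ZP E)} {RF : AddSubgroup (ZP F)} (h : RE ≤ RF.comap (zmap φ)) {α : ZP E}
    (hα : α ∈ kerOf E m RE) : zmap φ α ∈ kerOf F m RF := by
  unfold kerOf at *
  split_ifs at hα ⊢
  · rw [AddMonoidHom.mem_ker] at hα ⊢
    rw [deltaTwo_zmap, hα, map_zero]
  · rw [AddMonoidHom.mem_ker] at hα ⊢
    rw [delta_zmap φ h, hα, map_zero]

/-- the map `E(t) → F(t)` -/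
noncomputable def mapT : RatFunc E →+* RatFunc F :=
  RatFunc.mapRingHom (Polynomial.mapRingHom φ)
    (nonZeroDivisors_le_comap_nonZeroDivisors_of_injective _ (Polynomial.map_injective φ φ.injective))

lemma evalAt_eq (t : F) (f : RatFunc F) (p q : Polynomial F) (hc : IsCoprime p q) (hq : q ≠ 0)
    (hf : f = algebraMap _ _ p / algebraMap _ _ q) : evalAt t (some f) =
      (open Classical in if q.eval t = 0 then none else some (p.eval t / q.eval t)) := by
  classical
  have h1 : f.num * q = p * f.denom := (RatFunc.num_mul_eq_mul_denom_iff hq).2 hf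
  have h2 : q ∣ f.denom := hc.symm.dvd_of_dvd_mul_left (by rw [← h1]; exact dvd_mul_left _ _)
  have h3 : f.denom ∣ q :=
    (RatFunc.isCoprime_num_denom f).symm.dvd_of_dvd_mul_left (by rw [h1]; exact dvd_mul_left _ _)
  have h4 : f.denom.eval t = 0 ↔ q.eval t = 0 := by
    constructor
    · intro h
      obtain ⟨r, hr⟩ := h3
      rw [hr, Polynomial.eval_mul, h, zero_mul]
    · intro h
      obtain ⟨r, hr⟩ := h2
      rw [hr, Polynomial.eval_mul, h, zero_mul]
  simp only [evalAt, evalRat, Option.elim_some]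
  by_cases h5 : q.eval t = 0
  · rw [if_pos (h4.2 h5), if_pos h5]
  · have h6 : f.denom.eval t ≠ 0 := fun h => h5 (h4.1 h)
    rw [if_neg h6, if_neg h5]
    congr 1
    rw [div_eq_div_iff h6 h5]
    have := congrArg (Polynomial.eval t) h1
    rwa [Polynomial.eval_mul, Polynomial.eval_mul] at this

lemma evalAt_map (t : E) (f : Option (RatFunc E)) :
    evalAt (φ t) (Option.map (mapT φ) f) = Option.map φ (evalAt t f) := by
  classical
  rcases f with _ | f
  · rfl
  · have hf : mapT φ f = algebraMap _ _ (f.num.map φ) / algebraMap _ _ (f.denom.map φ) :=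
      RatFunc.map_apply (Polynomial.mapRingHom φ)
        (nonZeroDivisors_le_comap_nonZeroDivisors_of_injective _ (Polynomial.map_injective φ φ.injective)) f
    have hc : IsCoprime (f.num.map φ) (f.denom.map φ) :=
      (RatFunc.isCoprime_num_denom f).map (Polynomial.mapRingHom φ)
    have hq : f.denom.map φ ≠ 0 := by
      rw [Polynomial.map_ne_zero_iff φ.injective]
      exact RatFunc.denom_ne_zero f
    rw [Option.map_some, evalAt_eq (φ t) _ _ _ hc hq hf]
    simp only [evalAt, evalRat, Option.elim_some]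
    have e1 : (f.denom.map φ).eval (φ t) = φ (f.denom.eval t) := by
      rw [Polynomial.eval_map, Polynomial.eval₂_at_apply]
    have e2 : (f.num.map φ).eval (φ t) = φ (f.num.eval t) := by
      rw [Polynomial.eval_map, Polynomial.eval₂_at_apply]
    rw [e1, e2]
    by_cases h : f.denom.eval t = 0
    · rw [if_pos h, if_pos (by rw [h, map_zero])]
      rfl
    · rw [if_neg h, if_neg (by rwa [map_eq_zero]), Option.map_some, map_div₀]

lemma zmap_spec (t : E) (α : ZP (RatFunc E)) :
    zmap φ (spec t α) = spec (φ t) (zmap (mapT φ) α) := by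
  have : (zmap φ).comp (spec t) = (spec (φ t)).comp (zmap (mapT φ)) := by
    apply FreeAbelianGroup.lift_ext
    intro x
    simp [zmap, spec, evalAt_map]
  exact DFunLike.congr_fun this α

end Maps

/-- functoriality of `R_n` -/
theorem R_zmap (n : ℕ) : ∀ {E F : Type} [Field E] [Field F] (φ : E →+* F), R n E ≤ (R n F).comap (zmap φ) := by
  induction n with
  | zero =>
    intro E F _ _ φ x _
    exact AddSubgroup.mem_top _
  | succ n ih =>
    intro E F _ _ φ
    cases n with
    | zero =>
      rw [R, AddSubgroup.closure_le]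
      rintro _ (rfl | rfl | ⟨x, y, hx, hy, rfl⟩)
      · rw [SetLike.mem_coe, AddSubgroup.mem_comap, zmap_some, map_zero, R]
        exact AddSubgroup.subset_closure (Or.inl rfl)
      · rw [SetLike.mem_coe, AddSubgroup.mem_comap, zmap_none, R]
        exact AddSubgroup.subset_closure (Or.inr (Or.inl rfl))
      · rw [SetLike.mem_coe, AddSubgroup.mem_comap, map_sub, map_add, zmap_some, zmap_some, zmap_some, map_mul, R]
        exact AddSubgroup.subset_closure
          (Or.inr (Or.inr ⟨φ x, φ y, by rwa [Ne, map_eq_zero], by rwa [Ne, map_eq_zero], rfl⟩))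
    | succ m =>
      rw [R, AddSubgroup.closure_le]
      rintro _ (rfl | rfl | ⟨α, hα, rfl⟩)
      · rw [SetLike.mem_coe, AddSubgroup.mem_comap, zmap_some, map_zero, R]
        exact AddSubgroup.subset_closure (Or.inl rfl)
      · rw [SetLike.mem_coe, AddSubgroup.mem_comap, zmap_none, R]
        exact AddSubgroup.subset_closure (Or.inr (Or.inl rfl))
      · rw [SetLike.mem_coe, AddSubgroup.mem_comap, map_sub, zmap_spec, zmap_spec, map_zero, map_one, R]
        exact AddSubgroup.subset_closure (Or.inr (Or.inr ⟨_, kerOf_zmap (mapT φ) (ih (mapT φ)) hα, rfl⟩))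

/-- functoriality of `ker δ_n` -/
lemma kerDelta_zmap (n : ℕ) {E F : Type} [Field E] [Field F] (φ : E →+* F) {α : ZP E} (hα : α ∈ kerDelta n E) :
    zmap φ α ∈ kerDelta n F :=
  kerOf_zmap φ (R_zmap (n - 1) φ) hα

/-- the map `ker δ_n(E) → ker δ_n(F)` -/
noncomputable def kmap (n : ℕ) {E F : Type} [Field E] [Field F] (φ : E →+* F) : kerDelta n E →+ kerDelta n F :=
  ((zmap φ).comp (kerDelta n E).subtype).codRestrict (kerDelta n F) fun α => kerDelta_zmap n φ α.2

lemma zmap_comp {D E F : Type} [Field D] [Field E] [Field F] (φ : D →+* E) (ψ : E →+* F) (α : ZP D) :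
    zmap (ψ.comp φ) α = zmap ψ (zmap φ α) := by
  have : zmap (ψ.comp φ) = (zmap ψ).comp (zmap φ) := by
    apply FreeAbelianGroup.lift_ext
    rintro (_ | x) <;> simp [zmap]
  exact DFunLike.congr_fun this α

/-! ### The single-valued polylogarithms -/

/-- `β_k`, the coefficients of `2x / (e^(2x) - 1)` -/
noncomputable def beta (k : ℕ) : ℝ := 2 ^ k * (bernoulli k : ℝ) / (k.factorial : ℝ)

/-- `Li_m(z)` for `|z| ≤ 1` -/
noncomputable def Li (m : ℕ) (z : ℂ) : ℂ := ∑' k : ℕ, z ^ (k + 1) / ((k : ℂ) + 1) ^ m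

/-- real part for odd `n`, imaginary part for even `n` -/
noncomputable def part (n : ℕ) (z : ℂ) : ℝ := if Odd n then z.re else z.im

/-- `L_n(z)` for `|z| ≤ 1` -/
noncomputable def ellDisc (n : ℕ) (z : ℂ) : ℝ :=
  part n (∑ k ∈ Finset.range n, ((beta k * Real.log ‖z‖ ^ k : ℝ) : ℂ) * Li (n - k) z)

/-- `L_n(z)`, by `L_n(z) = (-1)^(n-1) L_n(1/z)` for `|z| > 1` -/
noncomputable def ell (n : ℕ) (z : ℂ) : ℝ :=
  open Classical in if ‖z‖ ≤ 1 then ellDisc n z else (-1) ^ (n - 1) * ellDisc n z⁻¹

/-- the linear extension of `L_n` to `ℤ[ℙ¹(ℂ)]`, with `L_n(∞) = 0` -/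
noncomputable def ellZ (n : ℕ) : ZP ℂ →+ ℝ :=
  lin fun z => z.elim 0 fun z => ell n z

end Pool.Agent.TH957.Zag
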