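import Pool.Agent.TH957.Zag.Grp
import Pool.Agent.TH957.Zag.Poly

/-!
# Zagier's conjecture on polylogarithms: statement, classical input, and reductions along automorphisms
-/

open NumberField

namespace Pool.Agent.TH957.Zag

/-- a number field -/
structure NF where
  carrier : Type
  [fld : Field carrier]
  [nf : NumberField carrier]

attribute [instance] NF.fld NF.nf

/-- the automorphisms of a number field -/
abbrev NF.Aut (F : NF) : Type := F.carrier ≃ₐ[ℚ] F.carrier

noncomputable instance NF.autGroup (F : NF) : Group F.Aut := AlgEquiv.aut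

noncomputable instance NF.autFintype (F : NF) : Fintype F.Aut := AlgEquiv.fintype ℚ F.carrier

/-- the embeddings of a number field into `ℂ` -/
abbrev NF.Emb (F : NF) : Type := F.carrier →+* ℂ

/-- the embeddings of a number field into another one -/
abbrev NF.Hom (E F : NF) : Type := E.carrier →+* F.carrier

/-- an automorphism as an embedding -/
def NF.hom {F : NF} (g : F.Aut) : NF.Hom F F := (g : F.carrier →+* F.carrier)

/-- `σ ∘ f` -/
def NF.pull {E F : NF} (f : NF.Hom E F) (σ : F.Emb) : E.Emb := σ.comp f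

/-- complex conjugation composed with `σ` -/
noncomputable def NF.bar {F : NF} (σ : F.Emb) : F.Emb := (starRingEnd ℂ).comp σ

/-- the fixed field of a group of automorphisms -/
noncomputable def NF.fix (F : NF) (H : Subgroup F.Aut) : NF :=
  ⟨IntermediateField.fixedField H⟩

/-- the inclusion of the fixed field -/
noncomputable def NF.incl (F : NF) (H : Subgroup F.Aut) : NF.Hom (F.fix H) F :=
  algebraMap (IntermediateField.fixedField H) F.carrier

/-- the archimedean places used in weight `n`: all of them for odd `n`, the complex ones for even `n` -/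
abbrev Idx (n : ℕ) (F : NF) : Type := {w : InfinitePlace F.carrier // Odd n ∨ w.IsComplex}

/-- `π ^ (n d_{n-1}) / √|d_F|` -/
noncomputable def factor (n : ℕ) (F : NF) : ℝ :=
  Real.pi ^ (n * Nat.card (Idx (n - 1) F)) / Real.sqrt |(discr F.carrier : ℝ)|

/-- `ζ_F(n)` is a nonzero rational multiple of `π ^ (n d_{n-1}) |d_F|^(-1/2) D` -/
def ZetaEq (n : ℕ) (F : NF) (D : ℝ) : Prop :=
  ∃ q : ℚ, q ≠ 0 ∧ dedekindZeta F.carrier (n : ℂ) = (((q : ℝ) * factor n F * D : ℝ) : ℂ)

open Classical in
/-- the determinant of `(f_j i)`, where the columns are indexed by the embeddings of the places of `Idx n F` -/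
noncomputable def placeDet (n : ℕ) (F : NF) (f : Idx n F → F.Emb → ℝ) : ℝ :=
  Matrix.det (Matrix.of fun i j : Idx n F => f i j.1.embedding)

/-- **Zagier's conjecture** for the field `F` in weight `n`: `ζ_F(n)` is a nonzero rational multiple of
`π ^ (n d_{n-1}) |d_F|^(-1/2) det (L_n(σ_j(y_i)))` for some `y_i ∈ ker δ_n`. -/
def Zagier (n : ℕ) (F : NF) : Prop :=
  ∃ y : Idx n F → kerDelta n F.carrier, ZetaEq n F (placeDet n F fun i σ => ellZ n (zmap σ (y i)))

/-- rational `K`-groups of number fields, functorial in the field -/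
structure KGroups where
  /-- the group attached to a number field -/
  K : NF → Type
  [kg : ∀ F, AddCommGroup (K F)]
  [km : ∀ F, Module ℚ (K F)]
  map : ∀ {E F : NF}, NF.Hom E F → (K E →ₗ[ℚ] K F)
  map_comp : ∀ {D E F : NF} (f : NF.Hom D E) (g : NF.Hom E F) (x : K D), map (g.comp f) x = map g (map f x)
  map_id : ∀ {F : NF} (x : K F), map (RingHom.id F.carrier) x = x

attribute [instance] KGroups.kg KGroups.km

/-- Galois descent: an invariant class comes from the fixed field -/
def KGroups.Descent (G : KGroups) : Prop :=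
  ∀ (F : NF) (H : Subgroup F.Aut) (x : G.K F), (∀ h ∈ H, G.map (NF.hom h) x = x) →
    ∃ y : G.K (F.fix H), G.map (F.incl H) y = x

/-- a system of maps `K F → ℝ`, one for each embedding of `F` into `ℂ` -/
abbrev KGroups.Reg (G : KGroups) : Type 1 := ∀ F : NF, F.Emb → (G.K F →ₗ[ℚ] ℝ)

/-- compatibility of the regulators with complex conjugation in weight `n` -/
def KGroups.ConjRule (G : KGroups) (n : ℕ) (reg : G.Reg) : Prop :=
  ∀ (F : NF) (σ : F.Emb) (x : G.K F), reg F (NF.bar σ) x = (-1) ^ (n - 1) * reg F σ x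

/-- Borel's theorem in weight `n`: the rank of `K F`, and for a basis the determinant of the regulators is nonzero
and gives `ζ_F(n)` up to a nonzero rational factor -/
def KGroups.Borel (G : KGroups) (n : ℕ) (reg : G.Reg) : Prop :=
  ∀ F : NF, Nonempty (Module.Basis (Idx n F) ℚ (G.K F)) ∧
    ∀ b : Module.Basis (Idx n F) ℚ (G.K F), placeDet n F (fun i σ => reg F σ (b i)) ≠ 0 ∧
      ZetaEq n F (placeDet n F fun i σ => reg F σ (b i))

/-- compatibility of the regulators with embeddings of fields -/
def KGroups.MapRule (G : KGroups) (reg : G.Reg) : Prop :=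
  ∀ (E F : NF) (f : NF.Hom E F) (σ : F.Emb) (x : G.K E), reg F σ (G.map f x) = reg E (NF.pull f σ) x

/-- the regulators of the classes `l F y`, `y ∈ ker δ_n`, are the polylogarithms `L_n(σ(y))` -/
def KGroups.PolyRule (G : KGroups) (n : ℕ) (reg : G.Reg) (l : ∀ F : NF, kerDelta n F.carrier → G.K F) : Prop :=
  ∀ (F : NF) (σ : F.Emb) (y : kerDelta n F.carrier), reg F σ (l F y) = ellZ n (zmap σ y)

/-- the classical facts on `K_{2n-1}(F)_ℚ`: functoriality, Galois descent, Borel's regulators and Borel's theorem,
and the map of Beilinson-Deligne and de Jeu on `ker δ_n` -/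
structure Theory (n : ℕ) where
  G : KGroups
  descent : G.Descent
  reg : G.Reg
  reg_map : G.MapRule reg
  reg_conj : G.ConjRule n reg
  borel : G.Borel n reg
  l : ∀ F : NF, kerDelta n F.carrier → G.K F
  reg_l : G.PolyRule n reg l

/-- the subspace of `K_{2n-1}(F)_ℚ` generated by the polylogarithmic classes -/
noncomputable def Theory.P {n : ℕ} (T : Theory n) (F : NF) : Submodule ℚ (T.G.K F) :=
  Submodule.span ℚ (Set.range (T.l F))

lemma factor_ne (n : ℕ) (F : NF) : factor n F ≠ 0 := by
  unfold factor
  apply div_ne_zero (pow_ne_zero _ Real.pi_ne_zero)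
  rw [Real.sqrt_ne_zero']
  rw [abs_pos]
  exact_mod_cast NumberField.discr_ne_zero F.carrier

lemma ZetaEq.ne_zero {n : ℕ} {F : NF} {D D' : ℝ} (h : ZetaEq n F D) (hD : D ≠ 0) (h' : ZetaEq n F D') : D' ≠ 0 := by
  rintro rfl
  obtain ⟨q, hq, hz⟩ := h
  obtain ⟨q', _, hz'⟩ := h'
  rw [hz, mul_zero] at hz'
  have h1 := Complex.ofReal_injective hz'
  have : (q : ℝ) ≠ 0 := by exact_mod_cast hq
  exact (mul_ne_zero (mul_ne_zero this (factor_ne n F)) hD) h1

namespace Theory

variable {n : ℕ} (T : Theory n)

/-- the regulators are injective -/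
lemma eq_zero_of_reg (F : NF) (x : T.G.K F) (h : ∀ σ, T.reg F σ x = 0) : x = 0 := by
  classical
  obtain ⟨⟨b⟩, hb⟩ := T.borel F
  have hdet := (hb b).1
  unfold placeDet at hdet
  set M : Matrix (Idx n F) (Idx n F) ℝ := Matrix.of fun i j : Idx n F => T.reg F j.1.embedding (b i) with hM
  have h1 : Matrix.vecMul (fun i => ((b.repr x i : ℚ) : ℝ)) M = 0 := by
    ext j
    have h2 : T.reg F j.1.embedding x = ∑ i, ((b.repr x i : ℚ) : ℝ) * M i j := by
      conv_lhs => rw [← b.sum_repr x]
      rw [map_sum]
      refine Finset.sum_congr rfl fun i _ => ?_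
      rw [map_smul, hM, Matrix.of_apply, Rat.smul_def]
    rw [h] at h2
    simp only [Matrix.vecMul, dotProduct, Pi.zero_apply]
    exact h2.symm
  have hdet' : M.det ≠ 0 := by convert hdet
  have h3 := Matrix.eq_zero_of_vecMul_eq_zero hdet' h1
  have h4 : b.repr x = 0 := by
    ext i
    have := congrFun h3 i
    simp only [Pi.zero_apply] at this
    rw [Finsupp.zero_apply]
    exact_mod_cast this
  exact (LinearEquiv.map_eq_zero_iff _).1 h4

/-- naturality of the polylogarithmic classes follows from the injectivity of the regulators -/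
lemma nat {E F : NF} (f : NF.Hom E F) (y : kerDelta n E.carrier) :
    T.l F (kmap n f y) = T.G.map f (T.l E y) := by
  rw [← sub_eq_zero]
  apply T.eq_zero_of_reg
  intro σ
  rw [map_sub, T.reg_l, T.reg_map, T.reg_l, NF.pull, zmap_comp, sub_eq_zero]
  rfl

/-- Zagier's conjecture means that the polylogarithmic classes generate the rational `K`-group -/
theorem zagier_iff (F : NF) : Zagier n F ↔ T.P F = ⊤ := by
  classical
  constructor
  · rintro ⟨y, hz⟩
    obtain ⟨⟨b⟩, hb⟩ := T.borel F
    obtain ⟨hdet, hz'⟩ := hb b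
    have hdy := hz'.ne_zero hdet hz
    unfold placeDet at hdy
    set M : Matrix (Idx n F) (Idx n F) ℝ :=
      Matrix.of fun i j : Idx n F => ellZ n (zmap j.1.embedding (y i)) with hM
    have hdy' : M.det ≠ 0 := by convert hdy
    have hli : LinearIndependent ℚ (fun i => T.l F (y i)) := by
      rw [Fintype.linearIndependent_iff]
      intro c hc
      have h1 : Matrix.vecMul (fun i => ((c i : ℚ) : ℝ)) M = 0 := by
        ext j
        have h2 : T.reg F j.1.embedding (∑ i, c i • T.l F (y i)) = ∑ i, ((c i : ℚ) : ℝ) * M i j := by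
          rw [map_sum]
          refine Finset.sum_congr rfl fun i _ => ?_
          rw [map_smul, hM, Matrix.of_apply, Rat.smul_def, T.reg_l]
        rw [hc, map_zero] at h2
        simp only [Matrix.vecMul, dotProduct, Pi.zero_apply]
        exact h2.symm
      have h3 := Matrix.eq_zero_of_vecMul_eq_zero hdy' h1
      intro i
      have := congrFun h3 i
      simp only [Pi.zero_apply] at this
      exact_mod_cast this
    have : FiniteDimensional ℚ (T.G.K F) := Module.Finite.of_basis b
    have hspan := hli.span_eq_top_of_card_eq_finrank' (by rw [Module.finrank_eq_card_basis b])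
    rw [← top_le_iff, ← hspan, P]
    apply Submodule.span_mono
    rintro _ ⟨i, rfl⟩
    exact ⟨y i, rfl⟩
  · intro hs
    obtain ⟨⟨b⟩, hb⟩ := T.borel F
    obtain ⟨s, hsub, hspan, hli⟩ := exists_linearIndependent ℚ (Set.range (T.l F))
    have hst : ⊤ ≤ Submodule.span ℚ (Set.range (Subtype.val : s → T.G.K F)) := by
      rw [Subtype.range_coe, hspan]
      exact hs.ge
    let b₁ : Module.Basis s ℚ (T.G.K F) := Module.Basis.mk hli hst
    let b₂ : Module.Basis (Idx n F) ℚ (T.G.K F) := b₁.reindex (b₁.indexEquiv b)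
    have hy : ∀ i, ∃ y, T.l F y = b₂ i := by
      intro i
      have h1 : b₂ i = ((b₁.indexEquiv b).symm i : T.G.K F) := by
        simp only [b₂, b₁, Module.Basis.reindex_apply, Module.Basis.mk_apply]
      rw [h1]
      exact hsub ((b₁.indexEquiv b).symm i).2
    choose y hy using hy
    refine ⟨y, ?_⟩
    have h2 := (hb b₂).2
    have e : (fun (i : Idx n F) (σ : F.Emb) => T.reg F σ (b₂ i)) =
        fun i σ => ellZ n (zmap σ (y i)) := by
      funext i σ
      rw [← T.reg_l, hy]
    rwa [e] at h2

/-- classes from a field for which the conjecture is known -/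
lemma mem_P_of {E F : NF} (f : NF.Hom E F) {x : T.G.K E} (hx : x ∈ T.P E) : T.G.map f x ∈ T.P F := by
  unfold P at *
  induction hx using Submodule.span_induction with
  | mem x hx =>
    obtain ⟨y, rfl⟩ := hx
    rw [← T.nat]
    exact Submodule.subset_span ⟨_, rfl⟩
  | zero => rw [map_zero]; exact Submodule.zero_mem _
  | add a b _ _ ha hb => rw [map_add]; exact Submodule.add_mem _ ha hb
  | smul r a _ ha => rw [map_smul]; exact Submodule.smul_mem _ r ha

/-- an invariant class is polylogarithmic if the conjecture holds for the fixed field -/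
lemma mem_P_of_fixed (F : NF) (H : Subgroup F.Aut) (hH : Zagier n (F.fix H)) (x : T.G.K F)
    (hx : ∀ h ∈ H, T.G.map (NF.hom h) x = x) : x ∈ T.P F := by
  obtain ⟨y, rfl⟩ := T.descent F H x hx
  apply T.mem_P_of
  rw [(T.zagier_iff _).1 hH]
  exact Submodule.mem_top

/-- action of an automorphism -/
lemma map_mul' (F : NF) (g h : F.Aut) (x : T.G.K F) :
    T.G.map (NF.hom (g * h)) x =
      T.G.map (NF.hom g) (T.G.map (NF.hom h) x) := by
  rw [← T.G.map_comp]
  rfl

open Classical in
/-- sum over a subgroup -/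
noncomputable def N (F : NF) (C : Subgroup F.Aut) (x : T.G.K F) : T.G.K F :=
  ∑ h ∈ (Finset.univ : Finset F.Aut).filter (fun h => h ∈ C), T.G.map (NF.hom h) x

lemma N_fixed (F : NF) (C : Subgroup F.Aut) (x : T.G.K F)
    (g : F.Aut) (hg : g ∈ C) : T.G.map (NF.hom g) (T.N F C x) = T.N F C x := by
  classical
  unfold N
  rw [map_sum]
  refine Finset.sum_nbij' (fun h => g * h) (fun h => g⁻¹ * h) ?_ ?_ ?_ ?_ ?_
  · intro h hh
    simp only [Finset.mem_filter, Finset.mem_univ, true_and] at hh ⊢
    exact C.mul_mem hg hh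
  · intro h hh
    simp only [Finset.mem_filter, Finset.mem_univ, true_and] at hh ⊢
    exact C.mul_mem (C.inv_mem hg) hh
  · intro h _
    simp
  · intro h _
    simp
  · intro h _
    rw [map_mul']

/-- the automorphisms act on rational `K`-theory -/
noncomputable def rho (F : NF) : F.Aut →* Module.End ℚ (T.G.K F) where
  toFun g := T.G.map (NF.hom g)
  map_one' := LinearMap.ext fun x => T.G.map_id x
  map_mul' g h := LinearMap.ext fun x => T.map_mul' F g h x

/-- the rational group algebra of the automorphism group acts on rational `K`-theory -/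
noncomputable def act (F : NF) : MonoidAlgebra ℚ F.Aut →ₐ[ℚ] Module.End ℚ (T.G.K F) :=
  MonoidAlgebra.lift ℚ (Module.End ℚ (T.G.K F)) F.Aut (T.rho F)

lemma act_mem (F : NF) (z : MonoidAlgebra ℚ F.Aut) {x : T.G.K F}
    (hx : x ∈ T.P F) : T.act F z x ∈ T.P F := by
  induction z using MonoidAlgebra.induction_on with
  | of g =>
    rw [act, MonoidAlgebra.lift_of]
    exact T.mem_P_of (NF.hom g) hx
  | add a b ha hb =>
    rw [map_add, LinearMap.add_apply]
    exact Submodule.add_mem _ ha hb
  | smul r a ha =>
    rw [map_smul, LinearMap.smul_apply]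
    exact Submodule.smul_mem _ r ha

lemma act_nrm (F : NF) (C : Subgroup F.Aut) (x : T.G.K F) :
    T.act F (nrm C) x = T.N F C x := by
  classical
  unfold nrm N
  rw [map_sum, LinearMap.sum_apply]
  refine Finset.sum_congr rfl fun h _ => ?_
  rw [act, MonoidAlgebra.lift_of]
  rfl

/-- the ideal of the norm elements maps into the polylogarithmic part -/
theorem act_normIdeal (F : NF) (S : Set (Subgroup F.Aut))
    (hZ : ∀ C ∈ S, Zagier n (F.fix C)) (z : MonoidAlgebra ℚ F.Aut)
    (hz : z ∈ normIdeal S) (x : T.G.K F) : T.act F z x ∈ T.P F := by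
  unfold normIdeal at hz
  induction hz using Submodule.span_induction with
  | mem z hz =>
    obtain ⟨a, b, C, hC, rfl⟩ := hz
    rw [map_mul, map_mul]
    show T.act F a (T.act F (nrm C) (T.act F b x)) ∈ _
    apply act_mem
    rw [act_nrm]
    exact T.mem_P_of_fixed F C (hZ C hC) _ fun g hg => T.N_fixed F C _ g hg
  | zero =>
    rw [map_zero, LinearMap.zero_apply]
    exact Submodule.zero_mem _
  | add a b _ _ ha hb =>
    rw [map_add, LinearMap.add_apply]
    exact Submodule.add_mem _ ha hb
  | smul r a _ ha =>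
    rw [map_smul, LinearMap.smul_apply]
    exact Submodule.smul_mem _ r ha

end Theory

/-- the subspace of the free `ℚ`-space on the embeddings of `F` generated by `conj ∘ τ - (-1)^(n-1) τ` -/
noncomputable def embRel (n : ℕ) (F : NF) : Submodule ℚ (F.Emb →₀ ℚ) :=
  Submodule.span ℚ (Set.range fun τ : F.Emb => Finsupp.single (NF.bar τ) 1 - Finsupp.single τ ((-1) ^ (n - 1)))

/-- `∑ z_g [σ ∘ g]` -/
noncomputable def embAct (F : NF) (z : MonoidAlgebra ℚ F.Aut) (σ : F.Emb) : F.Emb →₀ ℚ :=
  ∑ g : F.Aut, Finsupp.single (NF.pull (NF.hom g) σ) (z.coeff g)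

/-- `z ∈ ℚ[Aut F]` fixes every embedding `σ : F → ℂ` modulo the relations `conj ∘ τ = (-1)^(n-1) τ` -/
def FixesEmb (n : ℕ) (F : NF) (z : MonoidAlgebra ℚ F.Aut) : Prop :=
  ∀ σ : F.Emb, embAct F z σ - Finsupp.single σ 1 ∈ embRel n F

namespace Theory

variable {n : ℕ} (T : Theory n)

lemma reg_act (F : NF) (z : MonoidAlgebra ℚ F.Aut) (σ : F.Emb) (x : T.G.K F) :
    T.reg F σ (T.act F z x) = ∑ g : F.Aut,
      z.coeff g • T.reg F (NF.pull (NF.hom g) σ) x := by
  have e : z.coeff.sum (fun a b => b • (T.rho F) a) = ∑ g : F.Aut, z.coeff g • T.rho F g :=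
    Finsupp.sum_fintype _ _ (fun _ => zero_smul _ _)
  rw [act, MonoidAlgebra.lift_apply, e, LinearMap.sum_apply, map_sum]
  refine Finset.sum_congr rfl fun g _ => ?_
  rw [LinearMap.smul_apply, map_smul]
  congr 1
  exact T.reg_map _ _ _ σ x

/-- such an element acts as the identity on rational `K`-theory -/
lemma act_eq (F : NF) (z : MonoidAlgebra ℚ F.Aut) (hz : FixesEmb n F z) (x : T.G.K F) :
    T.act F z x = x := by
  classical
  rw [← sub_eq_zero]
  apply T.eq_zero_of_reg
  intro σ
  set Φ : (F.Emb →₀ ℚ) →ₗ[ℚ] ℝ := Finsupp.linearCombination ℚ (fun σ => T.reg F σ x) with hΦ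
  have h1 : ∀ v ∈ embRel n F, Φ v = 0 := by
    intro v hv
    unfold embRel at hv
    induction hv using Submodule.span_induction with
    | mem v hv =>
      obtain ⟨τ, rfl⟩ := hv
      simp only [hΦ, map_sub, Finsupp.linearCombination_single, one_smul]
      rw [T.reg_conj, Rat.smul_def]
      push_cast
      ring
    | zero => exact map_zero _
    | add a b _ _ ha hb => rw [map_add, ha, hb, add_zero]
    | smul r a _ ha => rw [map_smul, ha, smul_zero]
  have h2 := h1 _ (hz σ)
  rw [embAct, map_sub, map_sum] at h2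
  simp only [hΦ, Finsupp.linearCombination_single, one_smul] at h2
  rw [map_sub, T.reg_act]
  exact h2

include T in
/-- **General reduction**: `z` in the two-sided ideal generated by the norm elements of the subgroups `C ∈ S`
and `z` fixes the embeddings modulo complex conjugation -/
theorem reduce_general (F : NF) (S : Set (Subgroup F.Aut))
    (z : MonoidAlgebra ℚ F.Aut) (hz : z ∈ normIdeal S) (hz' : FixesEmb n F z)
    (hZ : ∀ C ∈ S, Zagier n (F.fix C)) : Zagier n F := by
  rw [T.zagier_iff, ← top_le_iff]
  intro x _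
  rw [← T.act_eq F z hz' x]
  exact T.act_normIdeal F S hZ z hz x

include T in
/-- a norm relation in the group algebra -/
theorem reduce_one (F : NF) (S : Set (Subgroup F.Aut))
    (h1 : (1 : MonoidAlgebra ℚ F.Aut) ∈ normIdeal S)
    (hZ : ∀ C ∈ S, Zagier n (F.fix C)) : Zagier n F := by
  rw [T.zagier_iff, ← top_le_iff]
  intro x _
  have := T.act_normIdeal F S hZ 1 h1 x
  rwa [map_one, Module.End.one_apply] at this

include T in
/-- **Reduction along a non-cyclic group of automorphisms with elements of prime order** -/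
theorem reduce (F : NF) (H : Subgroup F.Aut) (hH : ¬ IsCyclic H)
    (hp : PrimeElements H)
    (hZ : ∀ C : Subgroup F.Aut, C ≤ H → (Nat.card C).Prime → Zagier n (F.fix C)) :
    Zagier n F :=
  T.reduce_one F _ (one_mem_normIdeal hH hp) fun C hC => hZ C hC.1 hC.2

end Theory

/-- complex conjugation is a nontrivial automorphism of `F` -/
def IsCM (F : NF) : Prop :=
  ∃ c : F.Aut, c ≠ 1 ∧ ∀ σ : F.Emb, NF.pull (NF.hom c) σ = NF.bar σ

/-- **the remaining fields**: no element of the two-sided ideal of `ℚ[Aut F]` generated by the norm elements of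
the nontrivial subgroups fixes the embeddings of `F` modulo complex conjugation -/
def Minimal (n : ℕ) (F : NF) : Prop :=
  ∀ z : MonoidAlgebra ℚ F.Aut, z ∈ normIdeal {C : Subgroup F.Aut | C ≠ ⊥} → ¬ FixesEmb n F z

lemma nrm_coeff {G : Type*} [Group G] [Fintype G] (C : Subgroup G) (g : G) :
    (nrm C).coeff g = (open Classical in if g ∈ C then (1 : ℚ) else 0) := by
  classical
  unfold nrm
  rw [MonoidAlgebra.coeff_sum, Finsupp.finsetSum_apply]
  simp only [MonoidAlgebra.of_apply, MonoidAlgebra.coeff_single, Finsupp.single_apply]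
  rw [Finset.sum_ite_eq']
  simp

lemma pull_one {F : NF} (σ : F.Emb) : NF.pull (NF.hom (1 : F.Aut)) σ = σ := by
  ext x
  rfl

lemma fixesEmb_one (n : ℕ) (F : NF) : FixesEmb n F 1 := by
  classical
  intro σ
  have e : embAct F 1 σ = Finsupp.single σ (1 : ℚ) := by
    unfold embAct
    rw [Finset.sum_eq_single 1]
    · rw [MonoidAlgebra.one_def, MonoidAlgebra.coeff_single, Finsupp.single_eq_same, pull_one]
    · intro g _ hg
      rw [MonoidAlgebra.one_def, MonoidAlgebra.coeff_single, Finsupp.single_apply, if_neg (Ne.symm hg),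
        Finsupp.single_zero]
    · intro h
      exact absurd (Finset.mem_univ _) h
  rw [e, sub_self]
  exact Submodule.zero_mem _

/-- there is no norm relation for a remaining field -/
theorem Minimal.no_relation {n : ℕ} {F : NF} (h : Minimal n F) :
    (1 : MonoidAlgebra ℚ F.Aut) ∉ normIdeal {C : Subgroup F.Aut | C ≠ ⊥} :=
  fun h1 => h 1 h1 (fixesEmb_one n F)

/-- the automorphism group of a remaining field: every subgroup of order `p q` is cyclic -/
theorem Minimal.isCyclic {n : ℕ} {F : NF} (h : Minimal n F) : CyclicPQ F.Aut := by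
  intro H p q hp hq hc
  by_contra hH
  apply h.no_relation
  refine normIdeal_mono ?_ (one_mem_normIdeal hH (prime_of_pq hp hq hc hH))
  rintro C ⟨_, hC⟩
  rintro rfl
  rw [Subgroup.card_bot] at hC
  exact Nat.not_prime_one hC

/-- in odd weight a remaining field is not a CM field -/
theorem Minimal.not_CM {n : ℕ} (hn : Odd n) {F : NF} (h : Minimal n F) : ¬ IsCM F := by
  classical
  rintro ⟨c, hc1, hc⟩
  have h4 : (-1 : ℚ) ^ (n - 1) = 1 := by
    apply Even.neg_one_pow
    obtain ⟨k, hk⟩ := hn
    exact ⟨k, by omega⟩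
  set C : Subgroup F.Aut := Subgroup.zpowers c with hC
  have hCb : C ≠ ⊥ := by
    rw [hC, Ne, Subgroup.zpowers_eq_bot]
    exact hc1
  have hle : C ≤
      { carrier := {g | ∀ σ : F.Emb, Finsupp.single (NF.pull (NF.hom g) σ) (1 : ℚ) - Finsupp.single σ 1 ∈ embRel n F}
        mul_mem' := fun {a b} ha hb σ => by
          have h1 := hb (NF.pull (NF.hom a) σ)
          have h2 := ha σ
          have h3 := (embRel n F).add_mem h1 h2
          rw [sub_add_sub_cancel] at h3
          exact h3
        one_mem' := fun σ => by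
          rw [pull_one, sub_self]
          exact (embRel n F).zero_mem
        inv_mem' := fun {a} ha σ => by
          have h1 := ha (NF.pull (NF.hom a⁻¹) σ)
          have h2 : NF.pull (NF.hom a) (NF.pull (NF.hom a⁻¹) σ) = σ := by
            ext x
            show σ (a⁻¹ (a x)) = σ x
            congr 1
            exact a.symm_apply_apply x
          rw [h2] at h1
          have h3 := (embRel n F).neg_mem h1
          rwa [neg_sub] at h3 } := by
    rw [hC, Subgroup.zpowers_le]
    intro σ
    have : Finsupp.single (NF.bar σ) (1 : ℚ) - Finsupp.single σ ((-1 : ℚ) ^ (n - 1)) ∈ embRel n F :=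
      Submodule.subset_span ⟨σ, rfl⟩
    rw [h4] at this
    rwa [hc]
  have hcard : (Nat.card C : ℚ) ≠ 0 := by
    have : Nat.card C ≠ 0 := Nat.card_pos.ne'
    exact_mod_cast this
  refine h ((Nat.card C : ℚ)⁻¹ • nrm C) ?_ ?_
  · apply Submodule.smul_mem
    exact Submodule.subset_span ⟨1, 1, C, hCb, by rw [one_mul, mul_one]⟩
  · intro σ
    have e : embAct F ((Nat.card C : ℚ)⁻¹ • nrm C) σ - Finsupp.single σ (1 : ℚ) =
        ∑ g ∈ (Finset.univ : Finset F.Aut).filter (fun g => g ∈ C),
          (Nat.card C : ℚ)⁻¹ • (Finsupp.single (NF.pull (NF.hom g) σ) (1 : ℚ) - Finsupp.single σ 1) := by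
      simp only [smul_sub]
      rw [Finset.sum_sub_distrib]
      congr 1
      · unfold embAct
        rw [Finset.sum_filter]
        refine Finset.sum_congr rfl fun g _ => ?_
        rw [MonoidAlgebra.coeff_smul_apply, nrm_coeff]
        by_cases hg : g ∈ C
        · rw [if_pos hg, if_pos hg, smul_eq_mul, Finsupp.smul_single, smul_eq_mul]
        · rw [if_neg hg, if_neg hg, smul_zero, Finsupp.single_zero]
      · rw [Finset.sum_const, ← Nat.cast_smul_eq_nsmul ℚ, smul_smul]
        have : (((Finset.univ : Finset F.Aut).filter (fun g => g ∈ C)).card : ℚ) = (Nat.card C : ℚ) := by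
          rw [Nat.card_eq_fintype_card]
          congr 1
          exact (Fintype.card_subtype _).symm
        rw [this, mul_inv_cancel₀ hcard, one_smul]
    rw [e]
    apply Submodule.sum_mem
    intro g hg
    apply Submodule.smul_mem
    exact hle (Finset.mem_filter.1 hg).2 σ

/-- in even weight a remaining field has a complex place -/
theorem Minimal.complex {n : ℕ} (hn : Even n) (h0 : 0 < n) {F : NF} (h : Minimal n F) :
    ∃ w : InfinitePlace F.carrier, w.IsComplex := by
  classical
  by_contra hno
  push Not at hno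
  refine h 0 (Submodule.zero_mem _) ?_
  intro σ
  have h1 : ComplexEmbedding.IsReal σ := by
    have := hno (InfinitePlace.mk σ)
    rwa [InfinitePlace.not_isComplex_iff_isReal, InfinitePlace.isReal_mk_iff] at this
  have h3 : NF.bar σ = σ := h1
  have h4 : (-1 : ℚ) ^ (n - 1) = -1 := by
    obtain ⟨k, hk⟩ := hn
    apply Odd.neg_one_pow
    exact ⟨k - 1, by omega⟩
  have h5 : Finsupp.single (NF.bar σ) (1 : ℚ) - Finsupp.single σ ((-1 : ℚ) ^ (n - 1)) ∈ embRel n F :=
    Submodule.subset_span ⟨σ, rfl⟩
  have h6 : embAct F 0 σ - Finsupp.single σ (1 : ℚ) =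
      (-1 / 2 : ℚ) • (Finsupp.single (NF.bar σ) (1 : ℚ) - Finsupp.single σ ((-1 : ℚ) ^ (n - 1))) := by
    rw [h3, h4, embAct]
    simp only [MonoidAlgebra.coeff_zero, Finsupp.coe_zero, Pi.zero_apply, Finsupp.single_zero,
      Finset.sum_const_zero, zero_sub, Finsupp.single_neg, sub_neg_eq_add, ← Finsupp.single_add,
      Finsupp.smul_single]
    rw [← Finsupp.single_neg]
    congr 1
    rw [smul_eq_mul]
    norm_num
  rw [h6]
  exact Submodule.smul_mem _ _ h5

lemma finrank_fix_lt (F : NF) (C : Subgroup F.Aut) (hC : 1 < Nat.card C) :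
    Module.finrank ℚ (F.fix C).carrier < Module.finrank ℚ F.carrier := by
  have h1 : Module.finrank (IntermediateField.fixedField C) F.carrier = Nat.card C :=
    IntermediateField.finrank_fixedField_eq_card C
  have h2 := Module.finrank_mul_finrank ℚ (IntermediateField.fixedField C) F.carrier
  have h3 : 0 < Module.finrank ℚ (IntermediateField.fixedField C) := Module.finrank_pos
  rw [h1] at h2
  show Module.finrank ℚ (IntermediateField.fixedField C) < _
  rw [← h2]
  nlinarith

namespace Theory

variable {n : ℕ} (T : Theory n)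

include T in
theorem main : (∀ F : NF, Zagier n F) ↔ ∀ F : NF, Minimal n F → Zagier n F := by
  refine ⟨fun h F _ => h F, fun h => ?_⟩
  have key : ∀ d : ℕ, ∀ F : NF, Module.finrank ℚ F.carrier = d → Zagier n F := by
    intro d
    induction d using Nat.strong_induction_on with
    | _ d ih =>
      intro F hd
      by_cases h1 : Minimal n F
      · exact h F h1
      · unfold Minimal at h1
        push Not at h1
        obtain ⟨z, hz, hz'⟩ := h1
        apply T.reduce_general F _ z hz hz'
        intro C hC
        apply ih _ _ _ rfl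
        rw [← hd]
        exact finrank_fix_lt F C (Subgroup.one_lt_card_iff_ne_bot C |>.2 hC)
  intro F
  exact key _ F rfl

end Theory

end Pool.Agent.TH957.Zag
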